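import Mathlib
import Pool.Agent.T2H92.MB.Run13
import Pool.Agent.TH890.DV.C2

/-!
`MP_e6b4b8_nt`, question 1: consecutive values `1` of the Möbius function on the integers `n^2 + 1`.

As posed (every `k`), the answer is negative for a local reason: `25` divides `n^2 + 1` for
`n ≡ 7, 18 mod 25`, so that among any `14` consecutive integers `n` there is one with
`μ(n^2 + 1) = 0`. Runs of `13` consecutive values `1` exist; the first one starts at `448094`.

For `k = 1` there are infinitely many such `n`, with a lower bound for their number, which is obtained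
from the theorem `Pool.Agent.TH890.DV.sqf9L` (`Pool/Agent/TH890/DV`).
-/

set_option autoImplicit false

namespace Pool.Agent.Results.MP_e6b4b8_nt.LongestRun

open Finset Filter ArithmeticFunction

/-- `μ((n + j)^2 + 1) = 1` for all `0 ≤ j < k` -/
def Run (k n : ℕ) : Prop := ∀ j < k, moebius ((n + j) ^ 2 + 1) = 1

open scoped Classical in
/-- the number of the integers `0 ≤ n ≤ X`, `n ≡ u mod q`, with `μ(n^2 + 1) = e` -/
noncomputable def count (q u : ℕ) (e : ℤ) (X : ℕ) : ℕ :=
  ((range (X + 1)).filter (fun n : ℕ => n ≡ u [MOD q] ∧ moebius (n ^ 2 + 1) = e)).card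

open scoped Classical in
/-- the set of the positive integers `X` with `P X` has logarithmic density `0` -/
def LogNull (P : ℕ → Prop) : Prop :=
  Tendsto (fun Z : ℕ => (∑ X ∈ (Icc 1 Z).filter P, 1 / (X : ℝ)) / Real.log Z) atTop (nhds 0)

open scoped Classical in
/-- the count of the library theorem -/
noncomputable def countL (q u k j X : ℕ) : ℕ :=
  ((range (X + 1)).filter (fun n : ℕ => n ≡ u [MOD q] ∧ Squarefree (n ^ 2 + 1) ∧
    cardFactors (n ^ 2 + 1) ≡ j [MOD k])).card

theorem moebius_eq_one_iff' (m : ℕ) :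
    moebius m = 1 ↔ Squarefree m ∧ cardFactors m ≡ 0 [MOD 2] := by
  constructor
  · intro h
    have hs : Squarefree m := by
      by_contra hs
      rw [moebius_eq_zero_of_not_squarefree hs] at h
      exact absurd h (by norm_num)
    refine ⟨hs, ?_⟩
    rw [moebius_apply_of_squarefree hs] at h
    rcases Nat.even_or_odd (cardFactors m) with he | ho
    · exact (Nat.modEq_zero_iff_dvd).2 he.two_dvd
    · rw [ho.neg_one_pow] at h
      exact absurd h (by norm_num)
  · rintro ⟨hs, h⟩
    rw [moebius_apply_of_squarefree hs]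
    exact (even_iff_two_dvd.2 ((Nat.modEq_zero_iff_dvd).1 h)).neg_one_pow

theorem moebius_eq_neg_one_iff' (m : ℕ) :
    moebius m = -1 ↔ Squarefree m ∧ cardFactors m ≡ 1 [MOD 2] := by
  constructor
  · intro h
    have hs : Squarefree m := by
      by_contra hs
      rw [moebius_eq_zero_of_not_squarefree hs] at h
      exact absurd h (by norm_num)
    refine ⟨hs, ?_⟩
    rw [moebius_apply_of_squarefree hs] at h
    rcases Nat.even_or_odd (cardFactors m) with he | ho
    · rw [he.neg_one_pow] at h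
      exact absurd h (by norm_num)
    · exact Nat.odd_iff.1 ho
  · rintro ⟨hs, h⟩
    rw [moebius_apply_of_squarefree hs]
    exact (Nat.odd_iff.2 h).neg_one_pow

theorem count_one (q u X : ℕ) : count q u 1 X = countL q u 2 0 X := by
  unfold count countL
  congr 1
  ext n
  simp only [mem_filter, moebius_eq_one_iff']

theorem count_neg_one (q u X : ℕ) : count q u (-1) X = countL q u 2 1 X := by
  unfold count countL
  congr 1
  ext n
  simp only [mem_filter, moebius_eq_neg_one_iff']

theorem library (q u : ℕ) (hq : 1 ≤ q)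
    (hu : ∀ l : ℕ, l.Prime → l ^ 2 ∣ q → ¬ l ^ 2 ∣ u ^ 2 + 1) :
    (∀ (j : ℕ) (ε : ℝ), 0 < ε →
      LogNull (fun X => (countL q u 2 j X : ℝ) < X / Real.log X ^ (Real.log 2 + ε))) ∧
    ∀ (j : ℕ) (δ : ℝ), 0 < δ →
      ∃ X₀ : ℕ, ∀ X : ℕ, X₀ ≤ X → (X : ℝ) ^ (1 - δ) ≤ countL q u 2 j X :=
  (Pool.Agent.TH890.DV.sqf9L (t := 0) (c := 1) (A := 1) (β := 0) (e := 1)
    ⟨le_rfl, by norm_num, by omega, by ring, squarefree_one, fun m => Nat.coprime_one_left _⟩
    (by simp) (k := 2) (by norm_num) hq u (fun m => m ^ 2 + 1)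
    (fun m => by unfold Pool.Agent.W78.EGQ.fq; ring) hu).2.2

theorem run_le (k n : ℕ) (h : Run k n) : k ≤ 13 := by
  by_contra hk
  obtain ⟨j, hj, h0⟩ := Pool.Agent.T2H92.MB.window_mu n
  have := h j (by omega)
  rw [h0] at this
  exact absurd this (by norm_num)

/-- 1. It is not true that for every `k ≥ 1` there are infinitely many `n ≥ 0` with
`μ((n + j)^2 + 1) = 1` for all `0 ≤ j < k`.

2. Indeed among any `14` consecutive integers there is an `m` with `μ(m^2 + 1) = 0`.

3. Runs of length `k` exist exactly for `k ≤ 13`.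

4. For `k = 1` there are infinitely many, and more: if `q ≥ 1` and `u` are such that `u^2 + 1` is not
divisible by the square of a prime whose square divides `q`, then for `e = 1` and for `e = -1` the number
of the `n ≤ X`, `n ≡ u mod q`, with `μ(n^2 + 1) = e` is at least `X^(1 - δ)` for every `δ > 0` and all
large `X`, and at least `X / (log X)^(log 2 + ε)` for every `ε > 0` and all `X` outside a set of
logarithmic density `0`. -/
theorem result :
    (¬ ∀ k : ℕ, 1 ≤ k → {n : ℕ | Run k n}.Infinite) ∧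
    (∀ n : ℕ, ∃ j < 14, moebius ((n + j) ^ 2 + 1) = 0) ∧
    (∀ k : ℕ, (∃ n, Run k n) ↔ k ≤ 13) ∧
    {n : ℕ | Run 1 n}.Infinite ∧
    ∀ q u : ℕ, 1 ≤ q → (∀ l : ℕ, l.Prime → l ^ 2 ∣ q → ¬ l ^ 2 ∣ u ^ 2 + 1) →
      ∀ e : ℤ, e = 1 ∨ e = -1 →
        (∀ ε : ℝ, 0 < ε →
          LogNull (fun X => (count q u e X : ℝ) < X / Real.log X ^ (Real.log 2 + ε))) ∧
        ∀ δ : ℝ, 0 < δ → ∃ X₀ : ℕ, ∀ X : ℕ, X₀ ≤ X → (X : ℝ) ^ (1 - δ) ≤ count q u e X := by
  have h4 : ∀ q u : ℕ, 1 ≤ q → (∀ l : ℕ, l.Prime → l ^ 2 ∣ q → ¬ l ^ 2 ∣ u ^ 2 + 1) →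
      ∀ e : ℤ, e = 1 ∨ e = -1 →
        (∀ ε : ℝ, 0 < ε →
          LogNull (fun X => (count q u e X : ℝ) < X / Real.log X ^ (Real.log 2 + ε))) ∧
        ∀ δ : ℝ, 0 < δ → ∃ X₀ : ℕ, ∀ X : ℕ, X₀ ≤ X → (X : ℝ) ^ (1 - δ) ≤ count q u e X := by
    intro q u hq hu e he
    obtain ⟨h1, h2⟩ := library q u hq hu
    rcases he with rfl | rfl
    · simp only [count_one]
      exact ⟨h1 0, h2 0⟩
    · simp only [count_neg_one]
      exact ⟨h1 1, h2 1⟩
  refine ⟨fun h => ?_, Pool.Agent.T2H92.MB.window_mu, fun k => ⟨?_, ?_⟩, ?_, h4⟩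
  · obtain ⟨n, hn⟩ := (h 14 (by norm_num)).nonempty
    exact absurd (run_le 14 n hn) (by norm_num)
  · rintro ⟨n, hn⟩
    exact run_le k n hn
  · intro hk
    exact ⟨448094, fun j hj => Pool.Agent.T2H92.MB.run13 j (by omega)⟩
  · obtain ⟨X₀, hX⟩ := (h4 1 0 le_rfl (fun l hl hd => by
      exfalso
      have h1 : l ^ 2 = 1 := Nat.dvd_one.1 hd
      have h2 := hl.two_le
      nlinarith) 1 (Or.inl rfl)).2 (1 / 2) (by norm_num)
    by_contra hfin
    rw [Set.not_infinite] at hfin
    set N : ℕ := hfin.toFinset.card with hN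
    set X : ℕ := max X₀ ((N + 1) ^ 2) with hXdef
    have hc := hX X (le_max_left _ _)
    have hle : count 1 0 1 X ≤ N := by
      unfold count
      apply card_le_card
      intro n hn
      rw [mem_filter] at hn
      rw [Set.Finite.mem_toFinset]
      intro j hj
      have : j = 0 := by omega
      subst this
      simpa using hn.2.2
    have hle' : (count 1 0 1 X : ℝ) ≤ N := by exact_mod_cast hle
    have h1 : ((N : ℝ) + 1) ≤ (X : ℝ) ^ (1 - (1 / 2 : ℝ)) := by
      have e1 : (1 - (1 / 2 : ℝ)) = 1 / 2 := by norm_num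
      rw [e1, ← Real.sqrt_eq_rpow]
      apply Real.le_sqrt_of_sq_le
      have : (N + 1) ^ 2 ≤ X := le_max_right _ _
      exact_mod_cast this
    linarith

end Pool.Agent.Results.MP_e6b4b8_nt.LongestRun
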